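import Pool.Agent.W477.GM.Stms

/-!
# GM-HIGH: power sets are bounded
-/

set_option maxHeartbeats 1000000
set_option linter.all false

namespace Pool.Agent.W477.GM.W878High

open Pool.Agent.W477.GM

section basic

variable {C : Type} {L : C → ℕ∞}

theorem rs_len_pos {K : J → Prop} {p : Cn C L} {j : J} (h : K j) : (rs K p).len j = p.len j :=
  if_pos h

theorem rs_len_neg {K : J → Prop} {p : Cn C L} {j : J} (h : ¬ K j) : (rs K p).len j = 0 :=
  if_neg h

theorem rs_bit_pos {K : J → Prop} {p : Cn C L} {j : J} {o : Ordinal.{0}} (h : K j) :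
    (rs K p).bit j o = p.bit j o := if_pos h

theorem mg_len_pos {K : J → Prop} {u t : Cn C L} {j : J} (h : K j) :
    (mg K u t).len j = u.len j := if_pos h

theorem mg_len_neg {K : J → Prop} {u t : Cn C L} {j : J} (h : ¬ K j)
    (h' : (j.2.1 : ℕ∞) < L u.c) : (mg K u t).len j = t.len j :=
  (if_neg h).trans (if_pos h')

theorem mg_len_zero {K : J → Prop} {u t : Cn C L} {j : J} (h : ¬ K j)
    (h' : ¬ (j.2.1 : ℕ∞) < L u.c) : (mg K u t).len j = 0 :=
  (if_neg h).trans (if_neg h')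

theorem mg_bit_pos {K : J → Prop} {u t : Cn C L} {j : J} {o : Ordinal.{0}} (h : K j) :
    (mg K u t).bit j o = u.bit j o := if_pos h

theorem mg_bit_neg {K : J → Prop} {u t : Cn C L} {j : J} {o : Ordinal.{0}} (h : ¬ K j)
    (h' : (j.2.1 : ℕ∞) < L u.c) : (mg K u t).bit j o = t.bit j o :=
  (if_neg h).trans (if_pos h')

theorem rs_eq_self {K : J → Prop} {p : Cn C L} (h : ∀ j, ¬ K j → p.len j = 0) : rs K p = p := by
  refine Cn.ext' (p := rs K p) (q := p) rfl ?_ ?_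
  · intro j
    by_cases hj : K j
    · exact rs_len_pos hj
    · rw [rs_len_neg hj, h j hj]
  · intro j o ho
    by_cases hj : K j
    · exact rs_bit_pos hj
    · rw [rs_len_neg hj] at ho
      exact absurd ho (not_lt.2 zero_le)

theorem len_of_rs {K : J → Prop} {p : Cn C L} (h : rs K p = p) {j : J} (hj : ¬ K j) :
    p.len j = 0 := by
  rw [← h]; exact rs_len_neg hj

end basic

section main

variable {C : Type} [PartialOrder C] [OrderTop C] {L : C → ℕ∞}

/-- The condition `p` with a stronger first component. -/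
noncomputable def low (hC : CAx C L) (p : Cn C L) (d : C) (hd : d ≤ p.c) : Cn C L where
  c := d
  len := p.len
  bit := p.bit
  fin := p.fin
  lt := p.lt
  off := p.off
  sup := fun j hj => lt_of_lt_of_le (p.sup j hj) (hC.anti d p.c hd)

theorem low_le (hC : CAx C L) (p : Cn C L) (d : C) (hd : d ≤ p.c) : low hC p d hd ≤ p :=
  ⟨hd, fun j => ⟨le_rfl, fun _ _ => rfl⟩⟩

/-- The names of the bound. -/
def zN {ι : Type} (y : ι → Nm (Cn C L)) (b : Ordinal.{0}) {Kc : Type} (ec : Kc → Cn C L)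
    (Q : ι → Kc → Prop) : Nm (Cn C L) :=
  .mk ι (fun i u => ∃ k, Q i k ∧ ec k = u ∧ rs (fun j => j.1 < b) u = u) y

theorem core (heq : EqF (Cn C L)) (hact : ActF (Cn C L)) (hC : CAx C L)
    (hS : SysAx (sysC C L)) (hhs : HsF (Cn C L) (sysC C L))
    (hdf : ∀ (x y : Nm (Cn C L)) p a, Liv (sysC C L) a x → Liv (sysC C L) a y → feq x y p →
      feq x y ((sysC C L).rho a p))
    (hdm : ∀ (x y : Nm (Cn C L)) p a, Liv (sysC C L) a x → Liv (sysC C L) a y → fmem x y p →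
      fmem x y ((sysC C L).rho a p))
    (hm : MgF C L)
    (hd : ∀ (b : Ordinal.{0}) (e : Finset (Ordinal.{0} × ℕ)) (I : Type) (A : I → Cn C L → Prop)
      (t0 : Cn C L), Cardinal.mk I < kap b →
      (∀ j, ¬ (b ≤ j.1 ∧ (j.1, j.2.1) ∈ e) → t0.len j = 0) →
      (∀ β n, (β, n) ∈ e → (n : ℕ∞) < L t0.c) →
      (∀ i t t', t' ≤ t → A i t → A i t') →
      ∃ t, t ≤ t0 ∧ t.c = t0.c ∧ (∀ j, ¬ (b ≤ j.1 ∧ (j.1, j.2.1) ∈ e) → t.len j = 0) ∧
        ∀ i, A i t ∨ ∀ t', t' ≤ t → t'.c = t0.c →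
          (∀ j, ¬ (b ≤ j.1 ∧ (j.1, j.2.1) ∈ e) → t'.len j = 0) → ¬ A i t')
    (hh : ∀ (K : J → Prop) φ v p,
      (∀ i (g : Cn C L ≃o Cn C L), (∃ z, FinS z ∧ (∀ j, K j → ∀ o, z j o = false) ∧
        ∀ q, g q = fl z q) → ∀ q, feq (act g (v i)) (v i) q) →
      Fc (HS (sysC C L)) φ v p → Fc (HS (sysC C L)) φ v (rs K p))
    (ι : Type) (U : ι → Cn C L → Prop) (y : ι → Nm (Cn C L))
    (hx : HS (sysC C L) (.mk ι U y)) (b : Ordinal.{0}) (hlx : Liv (sysC C L) b (.mk ι U y))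
    (Kc : Type) (ec : Kc → Cn C L)
    (hec : ∀ p, rs (fun j => j.1 < b) p = p → ∃ k, ec k = p)
    (hcard : Cardinal.mk (ι × Kc) < kap b)
    (w : Nm (Cn C L)) (p : Cn C L) (hw : HS (sysC C L) w)
    (hsub : ∀ y', HS (sysC C L) y' → ∀ q, q ≤ p → fmem y' w q → fmem y' (.mk ι U y) q) :
    ∃ Q : ι → Kc → Prop, HS (sysC C L) (zN y b ec Q) ∧ ∃ q, q ≤ p ∧ feq w (zN y b ec Q) q := by
  classical
  set S := sysC C L with hSdef
  set Kb : J → Prop := fun j => j.1 < b with hKb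
  have hrho : ∀ q, S.rho b q = rs Kb q := fun q => rfl
  have rs_le : ∀ q : Cn C L, q ≤ rs Kb q := fun q => hS.le_rho b q
  have rs_mono : ∀ q r : Cn C L, q ≤ r → rs Kb q ≤ rs Kb r := fun q r h => hS.mono b q r h
  have rs_rs : ∀ q : Cn C L, rs Kb (rs Kb q) = rs Kb q := fun q => hS.rho_rho b b q le_rfl
  have hyHS : ∀ i, HS S (y i) := hhs.child ι U y hx
  have hyL : ∀ i, Liv S b (y i) := fun i => hlx.2 i
  -- the support
  obtain ⟨e1, he1⟩ := hhs.supp w hw
  obtain ⟨e2, he2⟩ := hhs.supp _ hx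
  obtain ⟨e, he⟩ := hS.dir e1 e2
  have hew : ∀ g, g ∈ S.fix e → ∀ q, feq (act g w) w q := fun g hg => he1 g (he g hg).1
  have hex : ∀ g, g ∈ S.fix e → ∀ q, feq (act g (.mk ι U y)) (.mk ι U y) q :=
    fun g hg => he2 g (he g hg).2
  change Finset (Ordinal.{0} × ℕ) at e
  obtain ⟨d, hdle, hdL⟩ := hC.cof p.c (e.sup fun j => j.2)
  set p' := low hC p d hdle with hp'
  have hp'p : p' ≤ p := low_le hC p d hdle
  have hp'c : p'.c = d := rfl
  have heL : ∀ β n, (β, n) ∈ e → (n : ℕ∞) < L d := by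
    intro β n hn
    refine lt_of_le_of_lt ?_ hdL
    have : n ≤ e.sup fun j => j.2 := Finset.le_sup (f := fun j : Ordinal.{0} × ℕ => j.2) hn
    exact_mod_cast this
  set T : J → Prop := fun j => b ≤ j.1 ∧ (j.1, j.2.1) ∈ e with hT
  set B : Nm (Cn C L) → Cn C L → Prop := fun y' r => fmem y' w r ∧ fmem y' (.mk ι U y) r with hB
  have Bmono : ∀ y' r r', r' ≤ r → B y' r → B y' r' := fun y' r r' h h' =>
    ⟨heq.mmono _ _ _ _ h h'.1, heq.mmono _ _ _ _ h h'.2⟩
  have Bcongr : ∀ y' y'' r, feq y' y'' r → B y' r → B y'' r := fun y' y'' r h h' =>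
    ⟨heq.mcongr _ _ _ _ _ h (heq.refl _ _) h'.1, heq.mcongr _ _ _ _ _ h (heq.refl _ _) h'.2⟩
  set A : ι × Kc → Cn C L → Prop := fun ik t =>
    rs Kb (ec ik.2) = ec ik.2 ∧ (ec ik.2).c ≤ d ∧ B (y ik.1) (mg Kb (ec ik.2) t) with hA
  have Amono : ∀ i t t', t' ≤ t → A i t → A i t' := fun i t t' h h' =>
    ⟨h'.1, h'.2.1, Bmono _ _ _ (hm.mono _ _ _ _ _ le_rfl h) h'.2.2⟩
  obtain ⟨t, ht0, htc, hts, htd⟩ := hd b e (ι × Kc) A (rs T p') hcard
    (fun j hj => rs_len_neg hj) (fun β n hn => heL β n hn) Amono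
  have htc' : t.c = d := htc
  have htT : rs T t = t := rs_eq_self hts
  set Q : ι → Kc → Prop := fun i k => A (i, k) t with hQ
  set Z : Nm (Cn C L) := zN y b ec Q with hZ
  have hZL : Liv S b Z := ⟨fun i u hu => by
    obtain ⟨k, _, _, hk⟩ := hu
    exact hk, hyL⟩
  -- C1
  have C1a : ∀ y' s, Liv S b y' → rs Kb s = s → fmem y' Z s → ∀ s', s' ≤ s → rs Kb s' = s' →
      ∃ s'', s'' ≤ s' ∧ rs Kb s'' = s'' ∧ s''.c ≤ d ∧ B y' (mg Kb s'' t) := by
    intro y' s hy' hs hmem s' hs' hs's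
    obtain ⟨r, hrs', i, ⟨u, ⟨k, hAk, hku, hu⟩, hru⟩, hfeq⟩ := hmem s' hs'
    subst hku
    have h1 : rs Kb r ≤ s' := by rw [← hs's]; exact rs_mono _ _ hrs'
    have h2 : rs Kb r ≤ ec k := by rw [← hu]; exact rs_mono _ _ hru
    refine ⟨rs Kb r, h1, rs_rs r, ?_, ?_⟩
    · exact le_trans h2.1 hAk.2.1
    · have h3 : B (y i) (mg Kb (rs Kb r) t) := Bmono _ _ _ (hm.mono _ _ _ _ _ h2 le_rfl) hAk.2.2
      have h4 : feq y' (y i) (rs Kb r) := hdf _ _ _ b hy' (hyL i) hfeq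
      exact Bcongr _ _ _ (heq.symm _ _ _ (heq.mono _ _ _ _ (hm.le_u _ _ _ (rs_rs r)) h4)) h3
  have C1b : ∀ y' s, Liv S b y' → rs Kb s = s → (∀ s', s' ≤ s → rs Kb s' = s' →
      ∃ s'', s'' ≤ s' ∧ rs Kb s'' = s'' ∧ s''.c ≤ d ∧ B y' (mg Kb s'' t)) → fmem y' Z s := by
    intro y' s hy' hs hall q hq
    have h1 : rs Kb q ≤ s := by rw [← hs]; exact rs_mono _ _ hq
    obtain ⟨s'', hs'', hss, hsc, hBs⟩ := hall (rs Kb q) h1 (rs_rs q)
    obtain ⟨r, hr, i, hlab, hfeq⟩ := hBs.2 _ le_rfl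
    set s3 := rs Kb r with hs3
    have h3 : s3 ≤ s'' := by
      have : rs Kb r ≤ rs Kb (mg Kb s'' t) := rs_mono _ _ hr
      rw [hm.rs, hss] at this
      exact this
    have h3s : rs Kb s3 = s3 := rs_rs r
    have h4 : feq y' (y i) s3 := hdf _ _ _ b hy' (hyL i) hfeq
    have h5 : B y' (mg Kb s3 t) := Bmono _ _ _ (hm.mono _ _ _ _ _ h3 le_rfl) hBs
    have h6 : B (y i) (mg Kb s3 t) :=
      Bcongr _ _ _ (heq.mono _ _ _ _ (hm.le_u _ _ _ h3s) h4) h5
    obtain ⟨k, hk⟩ := hec s3 h3s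
    have hAk : A (i, k) t := by
      refine ⟨?_, ?_, ?_⟩
      · show rs Kb (ec k) = ec k
        rw [hk]; exact h3s
      · show (ec k).c ≤ d
        rw [hk]; exact le_trans h3.1 hsc
      · show B (y i) (mg Kb (ec k) t)
        rw [hk]; exact h6
    have h7 : mg Kb s3 q ≤ q := hm.le_q _ _ _ (le_trans h3 hs'')
    have h8 : mg Kb s3 q ≤ s3 := hm.le_u _ _ _ h3s
    exact ⟨mg Kb s3 q, h7, i, ⟨s3, ⟨k, hAk, hk, h3s⟩, h8⟩, heq.mono _ _ _ _ h8 h4⟩
  -- C2
  have C2 : ∀ g, g ∈ S.fix e → ∀ y' s, Liv S b y' → fmem y' Z s → fmem (act g y') Z (g s) := by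
    intro g hg y' s hy' hmem
    have hgG : g ∈ S.G := hS.fsub e g hg
    obtain ⟨z, hzf, hze, hgz⟩ := hg
    have hg' : g ∈ S.fix e := ⟨z, hzf, hze, hgz⟩
    have hcomm : ∀ q, rs Kb (g q) = g (rs Kb q) := fun q => hS.rho_act g hgG b q
    have h0 : fmem y' Z (rs Kb s) := hdm _ _ _ b hy' hZL hmem
    have h1 : g s ≤ g (rs Kb s) := g.monotone (rs_le s)
    refine heq.mmono _ _ _ _ h1 ?_
    have h2 : rs Kb (g (rs Kb s)) = g (rs Kb s) := by rw [hcomm, rs_rs]
    refine C1b _ _ (hhs.livact g hgG b y' hy') h2 ?_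
    intro s1 hs1 hs1s
    obtain ⟨s', rfl⟩ : ∃ s', g s' = s1 := ⟨g.symm s1, g.apply_symm_apply s1⟩
    have h3 : s' ≤ rs Kb s := g.le_iff_le.1 hs1
    have h4 : rs Kb s' = s' := by
      have := hcomm s'
      rw [hs1s] at this
      exact (g.injective this).symm
    obtain ⟨s'', hs'', hss, hsc, hBs⟩ := C1a y' (rs Kb s) hy' (rs_rs s) h0 s' h3 h4
    refine ⟨g s'', g.monotone hs'', by rw [hcomm, hss], ?_, ?_⟩
    · rw [hgz]; exact hsc
    · have h5 : mg Kb (g s'') t = g (mg Kb s'' t) := by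
        rw [hgz, hgz]
        refine (hm.flip Kb s'' t z ?_).symm
        intro j hj hjt
        have : T j := by
          by_contra hnT
          exact hjt (hts j hnT)
        exact hze j this.2
      rw [h5]
      constructor
      · have := (hact.fmem g y' w (mg Kb s'' t)).2 hBs.1
        exact heq.mcongr _ _ _ _ _ (heq.refl _ _) (hew g hg' _) this
      · have := (hact.fmem g y' (.mk ι U y) (mg Kb s'' t)).2 hBs.2
        exact heq.mcongr _ _ _ _ _ (heq.refl _ _) (hex g hg' _) this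
  -- Z is hereditarily symmetric
  have hZsym : ∀ g, g ∈ S.fix e → ∀ q, feq (act g Z) Z q := by
    intro g hg q0
    refine heq.ext ι _ _ ι _ _ q0 ?_ ?_
    · intro i q hq h
      have h1 : fmem (act g (y i)) (act g Z) (g (g.symm q)) := by
        rw [g.apply_symm_apply]; exact h
      have h2 := (hact.fmem g (y i) Z (g.symm q)).1 h1
      have h3 := C2 g hg (y i) _ (hyL i) h2
      rw [g.apply_symm_apply] at h3
      exact h3
    · intro i q hq h
      have hg' : g⁻¹ ∈ S.fix e := hS.finv e g hg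
      have h1 := C2 g⁻¹ hg' (y i) q (hyL i) h
      have h2 := (hact.fmem g (act g⁻¹ (y i)) Z (g⁻¹ q)).2 h1
      rw [← hact.mul, mul_inv_cancel, hact.one] at h2
      have h3 : g (g⁻¹ q) = q := g.apply_symm_apply q
      rw [h3] at h2
      exact h2
  have hZHS : HS S Z := ⟨⟨b, fun i u hu => by
    obtain ⟨k, _, _, hk⟩ := hu
    exact hk⟩, ⟨e, hZsym⟩, hyHS⟩
  refine ⟨Q, hZHS, ?_⟩
  -- C3
  set q := mg T t p' with hq
  have hqp' : q ≤ p' := hm.le_q _ _ _ ht0
  have hqt : q ≤ t := hm.le_u _ _ _ htT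
  have hqc : q.c = d := by rw [hq, hm.c, htc']
  have hqp : q ≤ p := hqp'.trans hp'p
  refine ⟨q, hqp, ?_⟩
  obtain ⟨ιw, Uw, yw, rfl⟩ : ∃ (ιw : Type) (Uw : ιw → Cn C L → Prop) (yw : ιw → Nm (Cn C L)),
      w = .mk ιw Uw yw := by
    cases w with
    | mk ιw Uw yw => exact ⟨ιw, Uw, yw, rfl⟩
  refine heq.ext ιw Uw yw ι _ y q ?_ ?_
  · intro i' q1 hq1 hmem
    refine heq.mdense _ _ _ fun q2 hq2 => ?_
    have hw'HS : HS S (yw i') := hhs.child ιw Uw yw hw i'
    have hmw : fmem (yw i') (.mk ιw Uw yw) q2 := heq.mmono _ _ _ _ hq2 hmem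
    have hq2q : q2 ≤ q := hq2.trans hq1
    have hmx : fmem (yw i') (.mk ι U y) q2 := hsub _ hw'HS q2 (hq2q.trans hqp) hmw
    obtain ⟨r, hr, i, hlab, hfeq⟩ := hmx _ le_rfl
    have hrq : r ≤ q := hr.trans hq2q
    have hBw : B (yw i') r := ⟨heq.mmono _ _ _ _ hr hmw, heq.mmono _ _ _ _ hr hmx⟩
    have hBi : B (y i) r := Bcongr _ _ _ hfeq hBw
    -- homogeneity
    set K' : J → Prop := fun j => j.1 < b ∨ (j.1, j.2.1) ∈ e with hK'
    set v : ℕ → Nm (Cn C L) := fun n =>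
      if n = 0 then y i else if n = 1 then .mk ιw Uw yw else .mk ι U y with hv
    have hfix : ∀ n (g : Cn C L ≃o Cn C L), (∃ z, FinS z ∧ (∀ j, K' j → ∀ o, z j o = false) ∧
        ∀ q, g q = fl z q) → ∀ q, feq (act g (v n)) (v n) q := by
      rintro n g ⟨z, hzf, hz, hgz⟩ q0
      have hge : g ∈ S.fix e := ⟨z, hzf, fun j hj => hz j (Or.inr hj), hgz⟩
      have hgb : ∀ u, S.rho b u = u → g u = u := by
        intro u hu
        rw [hgz]
        refine Cn.ext' (p := fl z u) (q := u) rfl ?_ ?_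
        · intro j; rfl
        · intro j o ho
          have ho' : o < u.len j := ho
          have hbit : (fl z u).bit j o = xor (u.bit j o) (z j o) := if_pos ho'
          rw [hbit]
          have hj : Kb j := by
            by_contra hj
            rw [len_of_rs hu hj] at ho'
            exact absurd ho' (not_lt.2 zero_le)
          rw [hz j (Or.inl hj) o, Bool.xor_false]
      simp only [hv]
      split_ifs
      · rw [hhs.fix b g hgb (y i) (hyL i)]
        exact heq.refl _ _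
      · exact hew g hge q0
      · exact hex g hge q0
    have hB1 : fmem (y i) (.mk ιw Uw yw) (rs K' r) := hh K' (.mem 0 1) v r hfix hBi.1
    have hB2 : fmem (y i) (.mk ι U y) (rs K' r) := hh K' (.mem 0 2) v r hfix hBi.2
    obtain ⟨k, hk⟩ := hec (rs Kb r) (rs_rs r)
    have hrc : r.c ≤ d := by rw [← hqc]; exact hrq.1
    have hLd : L d ≤ L r.c := hC.anti _ _ hrc
    set t' : Cn C L := mg (fun _ => False) (cz d) (rs T r) with ht'
    have ht'c : t'.c = d := by rw [ht', hm.c]; rfl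
    have ht'len : ∀ j, T j → t'.len j = r.len j := by
      intro j hj
      rw [ht', mg_len_neg (K := fun _ => False) (fun h => h) (heL _ _ hj.2), rs_len_pos hj]
    have ht'bit : ∀ j o, T j → t'.bit j o = r.bit j o := by
      intro j o hj
      rw [ht', mg_bit_neg (K := fun _ => False) (fun h => h) (heL _ _ hj.2), rs_bit_pos hj]
    have ht's : ∀ j, ¬ T j → t'.len j = 0 := by
      intro j hj
      by_cases h' : (j.2.1 : ℕ∞) < L (cz (L := L) d).c
      · rw [ht', mg_len_neg (K := fun _ => False) (fun h => h) h', rs_len_neg hj]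
      · rw [ht', mg_len_zero (K := fun _ => False) (fun h => h) h']
    have hmg : mg Kb (rs Kb r) t' = rs K' r := by
      apply Cn.ext'
      · rw [hm.c]; rfl
      · intro j
        by_cases hj : Kb j
        · rw [mg_len_pos hj, rs_len_pos hj, rs_len_pos (K := K') (Or.inl hj)]
        · by_cases hTj : T j
          · rw [mg_len_neg (u := rs Kb r) hj (lt_of_lt_of_le (heL _ _ hTj.2) hLd), ht'len j hTj,
              rs_len_pos (K := K') (Or.inr hTj.2)]
          · have hK'j : ¬ K' j := by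
              rintro (h | h)
              · exact hj h
              · exact hTj ⟨not_lt.1 hj, h⟩
            rw [rs_len_neg hK'j]
            by_cases h' : (j.2.1 : ℕ∞) < L (rs Kb r).c
            · rw [mg_len_neg hj h', ht's j hTj]
            · rw [mg_len_zero hj h']
      · intro j o ho
        by_cases hj : Kb j
        · rw [mg_bit_pos hj, rs_bit_pos hj, rs_bit_pos (K := K') (Or.inl hj)]
        · by_cases hTj : T j
          · rw [mg_bit_neg (u := rs Kb r) hj (lt_of_lt_of_le (heL _ _ hTj.2) hLd), ht'bit j o hTj,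
              rs_bit_pos (K := K') (Or.inr hTj.2)]
          · exfalso
            by_cases h' : (j.2.1 : ℕ∞) < L (rs Kb r).c
            · rw [mg_len_neg hj h', ht's j hTj] at ho
              exact absurd ho (not_lt.2 zero_le)
            · rw [mg_len_zero hj h'] at ho
              exact absurd ho (not_lt.2 zero_le)
    have hAt' : A (i, k) t' := by
      refine ⟨?_, ?_, ?_⟩
      · show rs Kb (ec k) = ec k
        rw [hk]; exact rs_rs r
      · show (ec k).c ≤ d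
        rw [hk]; exact hrc
      · show B (y i) (mg Kb (ec k) t')
        rw [hk, hmg]; exact ⟨hB1, hB2⟩
    have hrt : r ≤ t := hrq.trans hqt
    have ht't : t' ≤ t := by
      refine ⟨by rw [ht'c, htc'], fun j => ?_⟩
      by_cases hTj : T j
      · rw [ht'len j hTj]
        refine ⟨(hrt.2 j).1, fun o ho => ?_⟩
        rw [ht'bit j o hTj]
        exact (hrt.2 j).2 o ho
      · rw [hts j hTj]
        exact ⟨zero_le, fun o ho => absurd ho (not_lt.2 zero_le)⟩
    have hAk : A (i, k) t := by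
      rcases htd (i, k) with h | h
      · exact h
      · exact absurd hAt' (h t' ht't (by rw [ht'c]; rfl) ht's)
    refine ⟨r, hr, ?_⟩
    have hchild : fmem (y i) Z r := by
      refine heq.child ι _ y i r ⟨ec k, ⟨k, hAk, rfl, ?_⟩, ?_⟩
      · show rs Kb (ec k) = ec k
        rw [hk]; exact rs_rs r
      · rw [hk]; exact rs_le r
    exact heq.mcongr _ _ _ _ _ (heq.symm _ _ _ hfeq) (heq.refl _ _) hchild
  · intro i q1 hq1 hmem
    refine heq.mdense _ _ _ fun q2 hq2 => ?_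
    obtain ⟨r, hr, i', ⟨u, ⟨k, hAk, hku, hu⟩, hru⟩, hfeq⟩ := hmem q2 hq2
    subst hku
    have hrt : r ≤ t := ((hr.trans hq2).trans hq1).trans hqt
    have h1 : r ≤ mg Kb (ec k) t := hm.le_of _ _ _ _ hru hrt
    have h2 : fmem (y i') (.mk ιw Uw yw) r := heq.mmono _ _ _ _ h1 hAk.2.2.1
    exact ⟨r, hr, heq.mcongr _ _ _ _ _ (heq.symm _ _ _ hfeq) (heq.refl _ _) h2⟩

end main

theorem high_holds (h : P_EQ) (h1 : P_ACT) (h2 : P_FC) (h3 : P_HS) (h4 : P_DEC) (hk : P_KAP)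
    (hs : P_SYSC) (hd : P_DIST) (hh : P_HOMK) (hm : P_MG) : P_HIGH := by
  intro C _ _ L hC x hx
  have hS : SysAx (sysC C L) := hs hk C L hC
  have hhs := h3 (Cn C L) (sysC C L) hS
  obtain ⟨ι, U, y, rfl⟩ : ∃ (ι : Type) (U : ι → Cn C L → Prop) (y : ι → Nm (Cn C L)),
      x = .mk ι U y := by
    cases x with
    | mk ι U y => exact ⟨ι, U, y, rfl⟩
  obtain ⟨a, ha⟩ := hhs.liv _ hx
  obtain ⟨b, hab, hb⟩ := hk.unb ι a
  obtain ⟨Kc, ec, hec, hKc⟩ := hk.stage C L hC.cnt b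
  have hcard : Cardinal.mk (ι × Kc) < kap b := by
    rw [Cardinal.mk_prod, Cardinal.lift_id, Cardinal.lift_id]
    exact Cardinal.mul_lt_of_lt (hk.reg b).aleph0_le hb hKc
  have hlx := hhs.liv_mono a b _ hab ha
  obtain ⟨_, hdf, hdm⟩ := h4 (Cn C L) (sysC C L) hS
  refine ⟨{Q : ι → Kc → Prop // HS (sysC C L) (zN y b ec Q)}, fun Q => zN y b ec Q.1,
    fun Q => Q.2, ?_⟩
  intro w p hw hsub
  obtain ⟨Q, hQ, q, hq, hfeq⟩ := core (h (Cn C L)) (h1 (Cn C L)) hC hS hhs hdf hdm (hm C L hC)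
    (hd hk C L) (hh C L hC) ι U y hx b hlx Kc ec hec hcard w p hw hsub
  exact ⟨q, hq, ⟨Q, hQ⟩, hfeq⟩

end Pool.Agent.W477.GM.W878High
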